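import Mathlib
import Pool.Agent.H.MP_636246_an.A

open MeasureTheory Filter Topology Real Finset Metric
open Pool.Agent.H.MP_636246_an

namespace Pool.Agent.Results.MP_636246_an.Sink

noncomputable def F (z : ℂ × ℂ) : ℂ × ℂ := (z.2, 9 / 16 * (3 * z.2 - z.2 ^ 3) - 1 / 8 * z.1)

lemma big {x : ℂ} (h : 3 ≤ ‖x‖) : 3 * ‖x‖ ≤ ‖9 / 16 * (3 * x - x ^ 3)‖ := by
  have := norm_sub_norm_le (x ^ 3) (3 * x)
  rw [norm_mul, norm_sub_rev]
  simp at this ⊢
  nlinarith [mul_nonneg (norm_nonneg x) (show 0 ≤ ‖x‖ ^ 2 - 9 by nlinarith)]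

lemma bdd {ν} (h : Inv F ν) : ∀ᵐ z ∂ν, ‖z‖ ≤ 3 := by
  obtain ⟨_, h⟩ := h
  have t (n : ℕ) : (3 : ℝ) ≤ 3 + n := by simp
  have a := shrink ν (fun n => {z | 3 + n ≤ ‖z.2‖ ∧ ‖z.1‖ ≤ ‖z.2‖}) (fun n => by measurability)
    (fun n z hz => ⟨by have := hz.1; push_cast at this; linarith, hz.2⟩) fun n => by
      rw [← h.measure_preimage (s := {z | 3 + ((n + 1 : ℕ) : ℝ) ≤ ‖z.2‖ ∧ ‖z.1‖ ≤ ‖z.2‖})
        (MeasurableSet.nullMeasurableSet (by measurability))]
      refine measure_mono fun z ⟨h1, h2⟩ => ?_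
      have := big ((t n).trans h1)
      have := norm_sub_norm_le (9 / 16 * (3 * z.2 - z.2 ^ 3)) (1 / 8 * z.1)
      simp [F] at *
      constructor <;> linarith [(n.cast_nonneg : (0 : ℝ) ≤ n)]
  have b := shrink ν (fun n => {z | 3 + n ≤ ‖z.1‖ ∧ ‖z.2‖ ≤ ‖z.1‖}) (fun n => by measurability)
    (fun n z hz => ⟨by have := hz.1; push_cast at this; linarith, hz.2⟩) fun n => by
      rw [← h.measure_preimage (s := {z | 3 + (n : ℝ) ≤ ‖z.1‖ ∧ ‖z.2‖ ≤ ‖z.1‖})
        (MeasurableSet.nullMeasurableSet (by measurability))]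
      refine measure_mono fun z ⟨h1, h2⟩ => ?_
      have := big ((t n).trans h1)
      have := norm_sub_norm_le (9 / 16 * (3 * z.2 - z.2 ^ 3)) (F z).2
      simp [F] at *
      constructor <;> linarith [(n.cast_nonneg : (0 : ℝ) ≤ n)]
  filter_upwards [a, b] with z a b
  by_contra! c
  obtain ⟨n, hn⟩ := exists_nat_gt ‖z‖
  rcases le_total ‖z.2‖ ‖z.1‖ with e | e
  · rw [Prod.norm_def, max_eq_left e] at c hn
    linarith [(b ⟨by simpa using c.le, e⟩ n).1]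
  · rw [Prod.norm_def, max_eq_right e] at c hn
    linarith [(a ⟨by simpa using c.le, e⟩ n).1]

def A (n : ℕ) : Set (ℂ × ℂ) := {z | ‖z.2 - 1‖ ≤ 1 / 16 / 2 ^ n ∧ ‖z.1 - 1‖ ≤ 2 * (1 / 16 / 2 ^ n)}

lemma tt (n : ℕ) : (0 : ℝ) < 1 / 16 / 2 ^ n ∧ (1 / 16 / 2 ^ n : ℝ) ≤ 1 / 16 ∧
    (1 / 16 / 2 ^ (n + 1) : ℝ) = 1 / 16 / 2 ^ n / 2 :=
  ⟨by positivity, div_le_self (by norm_num) (one_le_pow₀ one_le_two), by ring⟩

lemma anti (n : ℕ) : A (n + 1) ⊆ A n := fun z ⟨h1, h2⟩ => ⟨by linarith [tt n], by linarith [tt n]⟩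

lemma step (n : ℕ) : A n ⊆ F ⁻¹' A (n + 1) := fun z ⟨h1, h2⟩ => ⟨by
  obtain ⟨r0, r1, r2⟩ := tt n
  have e : (F z).2 - 1 = -(9 / 16 * ((z.2 - 1) * (z.2 - 1) * (3 + (z.2 - 1))) + 1 / 8 * (z.1 - 1)) := by
    simp only [F]; ring
  have s1 : ‖3 + (z.2 - 1)‖ ≤ 4 := (norm_add_le _ _).trans (by simp at *; linarith)
  rw [e, norm_neg, r2]
  refine (norm_add_le _ _).trans ?_
  generalize (1 / 16 / 2 ^ n : ℝ) = r at *
  have : ‖z.2 - 1‖ * ‖z.2 - 1‖ * ‖3 + (z.2 - 1)‖ ≤ r * (1 / 16) * 4 := by gcongr; linarith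
  simp only [norm_mul]
  norm_num; linarith, by simp only [F]; linarith [tt n]⟩

lemma zer {z : ℂ × ℂ} (d : dist z (1, 1) ≤ 1 / 16) : z ∈ A 0 := by
  rw [Prod.dist_eq, max_le_iff, dist_eq_norm, dist_eq_norm] at d
  exact ⟨by simpa using d.2, by linarith [d.1]⟩

lemma lim {z : ℂ × ℂ} (a : ∀ n, z ∈ A n) : z = (1, 1) := by
  have l : Tendsto (fun n : ℕ => (1 / 16 / 2 ^ n : ℝ)) atTop (𝓝 0) :=
    tendsto_const_nhds.div_atTop (tendsto_pow_atTop_atTop_of_one_lt one_lt_two)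
  exact Prod.ext (sub_eq_zero.1 (norm_le_zero_iff.1 (ge_of_tendsto' (by simpa using l.const_mul 2)
    fun n => (a n).2))) (sub_eq_zero.1 (norm_le_zero_iff.1 (ge_of_tendsto' l fun n => (a n).1)))

lemma sink {ν} (h : Inv F ν) : ∀ᵐ z ∂ν, dist z (1, 1) ≤ 1 / 16 → z = (1, 1) := by
  obtain ⟨_, h⟩ := h
  have m : ∀ n, MeasurableSet (A n) := fun n => by unfold A; measurability
  filter_upwards [shrink ν A m anti fun n => by
    rw [← h.measure_preimage (m (n + 1)).nullMeasurableSet]; exact measure_mono (step n)] with z a d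
  exact lim (a (zer d))

lemma far {n : ℕ} {x : ℂ × ℂ} (h : x ∈ SP F n) : 1 / 16 < dist x (1, 1) := by
  obtain ⟨e, l, -, hl, -, v, -⟩ := h
  by_contra! d
  have hF : HasFDerivAt F (ContinuousLinearMap.prod (.snd ℂ ℂ ℂ) (-(1 / 8 : ℂ) • .fst ℂ ℂ ℂ)) (1, 1) :=
    (hasFDerivAt_snd.prodMk ((((hasFDerivAt_snd.const_mul 3).sub (hasFDerivAt_snd.pow 3)).const_mul
      (9 / 16)).sub (hasFDerivAt_fst.const_mul (1 / 8)))).congr_fderiv (by ext <;> simp)
  set B := ContinuousLinearMap.prod (.snd ℂ ℂ ℂ) (-(1 / 8 : ℂ) • .fst ℂ ℂ ℂ : ℂ × ℂ →L[ℂ] ℂ)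
  have k : ∀ w, ‖(B ^ n) w‖ ≤ ‖w‖ := by
    clear e v
    induction n with
    | zero => simp
    | succ n ih =>
      intro w
      rw [pow_succ, ContinuousLinearMap.mul_apply]
      refine (ih _).trans (max_le (norm_snd_le w) ?_)
      have := norm_fst_le w
      simp [B]; linarith [norm_nonneg w]
  have : fderiv ℂ F^[n] x = B ^ n := by
    rcases n.eq_zero_or_pos with rfl | n0
    · simp; rfl
    have i : ∀ j, F^[j] x ∈ A j := fun j => by
      induction j with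
      | zero => exact zer d
      | succ j ih => rw [Function.iterate_succ_apply']; exact step j ih
    rw [lim (z := x) fun j => antitone_nat_of_succ_le anti (Nat.le_mul_of_pos_left j n0) (by
      have := i (n * j)
      rwa [Function.iterate_mul, Function.iterate_fixed e] at this)]
    exact (hF.iterate (by simp [F]; norm_num) n).fderiv
  obtain ⟨w, hw⟩ := v.exists_hasEigenvector
  have := k w
  rw [← ‹fderiv ℂ F^[n] x = B ^ n›, show fderiv ℂ F^[n] x w = l • w from hw.apply_eq_smul, norm_smul] at this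
  nlinarith [norm_pos_iff.2 hw.2]

theorem result : ∃ (p : Polynomial ℂ) (a : ℂ) (φ : ℂ × ℂ → ℝ) (C : NNReal) (μ : Measure (ℂ × ℂ)) (P : ℝ),
    2 ≤ p.natDegree ∧ a ≠ 0 ∧ LipschitzWith C φ ∧ pr (hen p a) φ = P ∧ IsEq (hen p a) φ μ ∧
    (∀ ν, IsEq (hen p a) φ ν → ν = μ) ∧
    ∃ g : ℂ × ℂ → ℝ, Continuous g ∧ HasCompactSupport g ∧ ∫ x, g x ∂μ = 1 ∧
      (∀ n, ∀ x ∈ SP (hen p a) n, g x = 0) ∧
      ¬ Tendsto (fun n => ∫ x, g x ∂wm (hen p a) φ P n) atTop (𝓝 (∫ x, g x ∂μ)) := by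
  have cF : ContDiff ℝ 1 F := by unfold F; fun_prop
  obtain ⟨α, α0, hα⟩ := bound cF
  let p : ℂ × ℂ := (1, 1)
  let φ (z : ℂ × ℂ) : ℝ := -(16 * (α + 1)) * min (1 / 16) (dist z p)
  have mp : MeasurableSet ({p}ᶜ : Set (ℂ × ℂ)) := by measurability
  have up : ∀ ν, Inv F ν → ks F ν + (∫ x, φ x ∂ν : ℝ) ≤ (-ν.real {p}ᶜ : ℝ) := fun ν hν => by
    have := hν.1
    have : ∫ x, φ x ∂ν = -((α + 1) * ν.real {p}ᶜ) := by
      rw [integral_congr_ae (g := ({p}ᶜ : Set (ℂ × ℂ)).indicator fun _ => -(α + 1)),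
        integral_indicator_const _ mp]
      · simp only [smul_eq_mul]; ring
      filter_upwards [sink hν] with z a
      by_cases c : z ∈ ({p}ᶜ : Set (ℂ × ℂ))
      · rw [Set.indicator_of_mem c]
        simp only [φ]
        rw [min_eq_left (not_le.1 fun d => c (a d)).le]
        ring
      · rw [Set.indicator_of_notMem c]
        rcases not_not.1 c with rfl
        simp [φ]
    rw [this]
    refine (add_le_add_left (hα ν hν (bdd hν) p p) _).trans ?_
    rw [← EReal.coe_add, Set.pair_eq_singleton]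
    exact EReal.coe_le_coe (by linarith)
  have iv : Inv F (.dirac p) := ⟨inferInstance, cF.continuous.measurable, by
    rw [Measure.map_dirac' cF.continuous.measurable]; simp [F, p]; norm_num⟩
  have lo : 0 ≤ ks F (.dirac p) + (∫ x, φ x ∂.dirac p : ℝ) := by
    rw [integral_dirac]
    simp only [φ, dist_self, min_eq_right (by norm_num : (0 : ℝ) ≤ 1 / 16), mul_zero, EReal.coe_zero,
      add_zero]
    refine le_iSup_of_le 1 (le_iSup₂_of_le (fun _ => 0) measurable_const (le_limsup_of_frequently_le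
      (.of_forall fun n => ?_)))
    exact_mod_cast div_nonneg (sum_nonneg fun _ _ => negMulLog_nonneg measureReal_nonneg measureReal_le_one)
      n.cast_nonneg
  have up' := fun ν hν => (up ν hν).trans (EReal.coe_le_coe (neg_nonpos.2 measureReal_nonneg))
  have P0 : pr F φ = (0 : ℝ) := le_antisymm (iSup₂_le up') (le_iSup₂_of_le _ iv lo)
  let g (z : ℂ × ℂ) : ℝ := max 0 (1 - 16 * dist z p)
  have cg : Continuous g := by fun_prop
  have g0 : ∀ x, 1 / 16 < dist x p → g x = 0 := fun x h => max_eq_left (by linarith)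
  have g1 : ∫ x, g x ∂.dirac p = 1 := by simp [g]
  have e : hen (.C (9 / 16) * (.C 3 * .X - .X ^ 3)) (1 / 8) = F := by ext z <;> simp [F, hen]
  refine ⟨.C (9 / 16) * (.C 3 * .X - .X ^ 3), 1 / 8, φ, _, .dirac p, 0,
    le_of_le_of_eq (by norm_num : 2 ≤ 3) (Eq.symm (by compute_degree!)), by norm_num,
    (lipschitzWith_smul (-(16 * (α + 1)))).comp ((LipschitzWith.dist_left p).const_min _), ?_⟩
  rw [e]
  refine ⟨P0, ⟨iv, P0 ▸ le_antisymm (up' _ iv) lo⟩, fun ν ⟨h, k⟩ => ?_, g, cg,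
    .intro (isCompact_closedBall p (1 / 16)) fun x hx => g0 x (not_le.1 hx), g1,
    fun n x hx => g0 x (far hx), fun h => ?_⟩
  · have := h.1
    have a := up ν h
    rw [k, P0, EReal.coe_le_coe_iff] at a
    have b : ∀ᵐ x ∂ν, id x = p := (measureReal_eq_zero_iff (s := {p}ᶜ)).1
      (le_antisymm (by linarith) measureReal_nonneg)
    rw [← Measure.map_id (μ := ν), Measure.map_congr b]
    simp
  · have z : ∀ n, ∫ x, g x ∂wm F φ 0 n = 0 := fun n => integral_eq_zero_of_ae (Measure.ae_sum_iff'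
      (isClosed_eq cg continuous_const).measurableSet |>.2 fun x => Measure.ae_smul_measure
        (by rw [ae_dirac_eq]; exact g0 x (far x.2)) _)
    simp only [z, g1] at h
    exact zero_ne_one (tendsto_const_nhds_iff.1 h)

end Pool.Agent.Results.MP_636246_an.Sink
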